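import Pool.Agent.W580.SH.StmA

/-! Project SH, part MINOR: nonzero minors and linear independence. -/

namespace Pool.Agent.W67.SH

open Pool.Agent.W580.SH Finset

theorem minor : S_MINOR := by
  intro R _ _ k c
  constructor
  · intro hc
    -- rows of the matrix
    set M : Matrix (Fin k) R ℝ := Matrix.of c with hM
    have hMrow : LinearIndependent ℝ M.row := hc
    have hrank : M.rank = k := by
      have := LinearIndependent.rank_matrix hMrow
      simpa using this
    have hrank' : Module.finrank ℝ (Submodule.span ℝ (Set.range M.col)) = k := by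
      rw [← Matrix.rank_eq_finrank_span_cols]; exact hrank
    obtain ⟨κ, a, hinj, hspan, hli⟩ := exists_linearIndependent' ℝ M.col
    haveI : Finite κ := Finite.of_injective a hinj
    haveI : Fintype κ := Fintype.ofFinite κ
    have hcard : Fintype.card κ = k := by
      rw [← hrank', ← hspan]
      exact (finrank_span_eq_card hli).symm
    obtain ⟨e⟩ : Nonempty (Fin k ≃ κ) := ⟨(Fintype.equivFinOfCardEq hcard).symm⟩
    refine ⟨fun i => a (e i), ?_⟩
    have hli2 : LinearIndependent ℝ ((M.col ∘ a) ∘ e) := hli.comp e e.injective
    have hli3 : LinearIndependent ℝ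
        (Matrix.of fun i b => c b (a (e i)) : Matrix (Fin k) (Fin k) ℝ).row := hli2
    rw [Matrix.linearIndependent_rows_iff_isUnit, Matrix.isUnit_iff_isUnit_det] at hli3
    exact hli3.ne_zero
  · rintro ⟨r, hr⟩
    rw [Fintype.linearIndependent_iff]
    intro g hg
    have h1 : (Matrix.of fun a b => c b (r a) : Matrix (Fin k) (Fin k) ℝ).mulVec g = 0 := by
      funext a
      have h2 := congrFun hg (r a)
      simp only [Finset.sum_apply, Pi.smul_apply, smul_eq_mul, Pi.zero_apply] at h2
      simp only [Matrix.mulVec, dotProduct, Matrix.of_apply, Pi.zero_apply]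
      rw [← h2]
      exact Finset.sum_congr rfl fun b _ => mul_comm _ _
    have h3 := Matrix.eq_zero_of_mulVec_eq_zero hr h1
    intro i
    rw [h3]; rfl

theorem kle : S_KLE := by
  intro R _ _ I k ρ b hb hdet
  have hinj : Function.Injective ρ := by
    intro i j hij
    by_contra hne
    apply hdet
    unfold mn
    refine Matrix.det_zero_of_row_eq hne ?_
    funext x
    simp [hij]
  have hmem : ∀ a, ρ a ∈ I := by
    intro a
    by_contra hna
    apply hdet
    unfold mn
    refine Matrix.det_eq_zero_of_row_eq_zero a ?_
    intro j
    simp [hb j (ρ a) hna]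
  calc k = (Finset.univ.image ρ).card := by
        rw [Finset.card_image_of_injective _ hinj, Finset.card_univ, Fintype.card_fin]
    _ ≤ I.card := Finset.card_le_card (by
        intro x hx
        rw [Finset.mem_image] at hx
        obtain ⟨a, -, rfl⟩ := hx
        exact hmem a)

end Pool.Agent.W67.SH
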